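import Pool.Agent.Q120.NL.Stm
import Pool.Agent.Q275.NC.ZI

/-!
# Integration over the line for a discrete set of ordinates (job NL-ZG; the proof is the one of helper275 for NC-ZI)
-/

set_option autoImplicit false

namespace Pool.Agent.Q195.NL.ZG

open MeasureTheory Set Filter Topology
open Pool.Agent.Q202.BD.Asm
open Pool.Agent.Q275.NC.ZI (rpow_comp' sum_Ga lint_cell)
open scoped ENNReal NNReal

theorem t_ZG : Pool.Agent.Q120.NL.J_ZG := by
  intro G hGG q κ hq hκ hqk
  obtain ⟨K0, hG⟩ := hGG
  obtain ⟨a, hadef⟩ : ∃ a : ℝ, a = q * (1 - κ) := ⟨_, rfl⟩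
  have ha : 1 < a := by rw [hadef]; exact hqk
  have hfin : ∀ T : ℝ, (G ∩ Icc T (T + 1)).Finite := fun T => (hG T).1
  have hcount : G.Countable := countable_G hfin
  have : Countable G := hcount.to_subtype
  have hsum := sum_Ga ha hG
  have hnn : ∀ g : ℝ, 0 ≤ (1 + |g|) ^ (-a) := fun g =>
    Real.rpow_nonneg (by positivity) _
  have hSn : 0 ≤ ∑' g : G, (1 + |(g : ℝ)|) ^ (-a) := tsum_nonneg fun g => hnn g
  have hkn : ∀ p : ℝ, 0 ≤ kap p := fun p => integral_nonneg fun x =>
    Real.rpow_nonneg (by positivity) _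
  obtain ⟨C, hC⟩ : ∃ C : ℝ, C = kap a + 2 ^ a * kap q * ∑' g : G, (1 + |(g : ℝ)|) ^ (-a) + 1 :=
    ⟨_, rfl⟩
  have hC0 : 0 < C := by
    have h1 := hkn a
    have h2 := hkn q
    have h3 : 0 ≤ 2 ^ a * kap q * ∑' g : G, (1 + |(g : ℝ)|) ^ (-a) := by positivity
    rw [hC]
    linarith
  refine ⟨C, hC0, ?_⟩
  intro L hL H hHm hH0 hH
  have hLp : 0 < L := by linarith
  have hq0 : 0 < q := by linarith
  have hexp : ∀ t : ℝ, ((1 + |t|) ^ (κ - 1)) ^ q = (1 + |t|) ^ (-a) := by
    intro t
    rw [← Real.rpow_mul (by positivity), hadef]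
    congr 1
    ring
  -- the pointwise bound
  have hpt : ∀ t : ℝ, t ∉ G → ENNReal.ofReal (H t ^ q) ≤
      ENNReal.ofReal (1 / L * (1 + |t|) ^ (-a)) +
      ∑' g : G, ENNReal.ofReal (2 ^ a * (1 + |(g : ℝ)|) ^ (-a)) *
        ENNReal.ofReal ((1 + L * |t - g|) ^ (-q)) := by
    intro t htG
    rcases cover hfin t with ht | ⟨g, hg, ht⟩
    · refine le_trans ?_ le_self_add
      refine ENNReal.ofReal_le_ofReal ?_
      have h1 := hH t 1 one_pos le_rfl (fun g hg => by
        rw [abs_sub_comm]
        exact ht g hg)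
      have h2 : (0 : ℝ) < 1 + L * 1 := by linarith
      calc H t ^ q ≤ ((1 + |t|) ^ (κ - 1) / (1 + L * 1)) ^ q :=
            Real.rpow_le_rpow (hH0 t) h1 hq0.le
        _ = (1 + |t|) ^ (-a) / (1 + L * 1) ^ q := by
            rw [Real.div_rpow (Real.rpow_nonneg (by positivity) _) h2.le, hexp]
        _ ≤ (1 + |t|) ^ (-a) / L := by
            refine div_le_div_of_nonneg_left (hnn t) hLp ?_
            calc L ≤ 1 + L * 1 := by linarith
              _ = (1 + L * 1) ^ (1 : ℝ) := (Real.rpow_one _).symm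
              _ ≤ (1 + L * 1) ^ q := Real.rpow_le_rpow_of_exponent_le (by linarith) hq.le
        _ = _ := by ring
    · refine le_trans ?_ le_add_self
      refine le_trans ?_ (ENNReal.le_tsum (⟨g, hg⟩ : G))
      show _ ≤ ENNReal.ofReal (2 ^ a * (1 + |g|) ^ (-a)) *
        ENNReal.ofReal ((1 + L * |t - g|) ^ (-q))
      have hne : t ≠ g := fun h => htG (h ▸ hg)
      have hd : 0 < |t - g| := abs_pos.2 (sub_ne_zero.2 hne)
      have h1 := hH t |t - g| hd ht.1 (fun g' hg' => by
        rw [abs_sub_comm g' t]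
        exact ht.2 g' hg')
      have h2 : (0 : ℝ) < 1 + L * |t - g| := by positivity
      rw [← ENNReal.ofReal_mul (mul_nonneg (by positivity) (hnn g))]
      refine ENNReal.ofReal_le_ofReal ?_
      have h3 : (1 + |t|) ^ (-a) ≤ 2 ^ a * (1 + |g|) ^ (-a) := by
        refine rpow_comp' (by positivity) ?_ (by linarith)
        have h3 : |g| ≤ |t - g| + |t| := by
          have := abs_sub_abs_le_abs_sub g t
          rw [abs_sub_comm g t] at this
          linarith
        have h4 := ht.1
        have h5 := abs_nonneg t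
        linarith
      calc H t ^ q ≤ ((1 + |t|) ^ (κ - 1) / (1 + L * |t - g|)) ^ q :=
            Real.rpow_le_rpow (hH0 t) h1 hq0.le
        _ = (1 + |t|) ^ (-a) * (1 + L * |t - g|) ^ (-q) := by
            rw [Real.div_rpow (Real.rpow_nonneg (by positivity) _) h2.le, hexp,
              Real.rpow_neg h2.le, div_eq_mul_inv]
        _ ≤ _ := mul_le_mul_of_nonneg_right h3 (Real.rpow_nonneg h2.le _)
  have hae : ∀ᵐ t : ℝ, t ∉ G := by
    rw [ae_iff]
    simp only [not_not]
    exact hcount.measure_zero _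
  have hHn : ∀ t, 0 ≤ H t ^ q := fun t => Real.rpow_nonneg (hH0 t) _
  have key : ∫⁻ t, ENNReal.ofReal (H t ^ q) ≤ ENNReal.ofReal (C / L) := by
    calc ∫⁻ t, ENNReal.ofReal (H t ^ q)
        ≤ ∫⁻ t, (ENNReal.ofReal (1 / L * (1 + |t|) ^ (-a)) +
          ∑' g : G, ENNReal.ofReal (2 ^ a * (1 + |(g : ℝ)|) ^ (-a)) *
            ENNReal.ofReal ((1 + L * |t - g|) ^ (-q))) := by
          refine lintegral_mono_ae ?_
          filter_upwards [hae] with t ht
          exact hpt t ht
      _ = (∫⁻ t : ℝ, ENNReal.ofReal (1 / L * (1 + |t|) ^ (-a))) +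
          ∑' g : G, (∫⁻ t : ℝ, ENNReal.ofReal (2 ^ a * (1 + |(g : ℝ)|) ^ (-a)) *
            ENNReal.ofReal ((1 + L * |t - g|) ^ (-q))) := by
          rw [lintegral_add_left (by fun_prop), lintegral_tsum]
          intro g
          fun_prop
      _ = ENNReal.ofReal (kap a / L) +
          ∑' g : G, ENNReal.ofReal (2 ^ a * (1 + |(g : ℝ)|) ^ (-a)) *
            ENNReal.ofReal (kap q / L) := by
          congr 1
          · rw [← ofReal_integral_eq_lintegral_ofReal ((kap_int ha).const_mul _)
              (Eventually.of_forall fun t => mul_nonneg (by positivity) (hnn t)),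
              integral_const_mul, ← kap]
            congr 1
            ring
          · refine tsum_congr fun g => ?_
            rw [lintegral_const_mul' _ _ ENNReal.ofReal_ne_top, lint_cell hq hLp]
      _ = ENNReal.ofReal (kap a / L) +
          ENNReal.ofReal (2 ^ a * ∑' g : G, (1 + |(g : ℝ)|) ^ (-a)) *
            ENNReal.ofReal (kap q / L) := by
          rw [ENNReal.tsum_mul_right, ← ENNReal.ofReal_tsum_of_nonneg
            (f := fun g : G => 2 ^ a * (1 + |(g : ℝ)|) ^ (-a))
            (fun g => mul_nonneg (by positivity) (hnn _)) (hsum.mul_left _), tsum_mul_left]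
      _ = ENNReal.ofReal (kap a / L + 2 ^ a * (∑' g : G, (1 + |(g : ℝ)|) ^ (-a)) *
            (kap q / L)) := by
          rw [← ENNReal.ofReal_mul (mul_nonneg (by positivity) hSn), ← ENNReal.ofReal_add
            (div_nonneg (hkn a) hLp.le)
            (mul_nonneg (mul_nonneg (by positivity) hSn) (div_nonneg (hkn q) hLp.le))]
      _ ≤ ENNReal.ofReal (C / L) := by
          refine ENNReal.ofReal_le_ofReal ?_
          have e : C / L = kap a / L + 2 ^ a * (∑' g : G, (1 + |(g : ℝ)|) ^ (-a)) *
            (kap q / L) + 1 / L := by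
            rw [hC]
            ring
          rw [e]
          have : 0 < 1 / L := by positivity
          linarith
  have hm : AEStronglyMeasurable (fun t => H t ^ q) volume :=
    (hHm.pow_const q).aestronglyMeasurable
  constructor
  · refine ⟨hm, ?_⟩
    rw [hasFiniteIntegral_iff_ofReal (Eventually.of_forall hHn)]
    exact key.trans_lt ENNReal.ofReal_lt_top
  · rw [integral_eq_lintegral_of_nonneg_ae (Eventually.of_forall hHn) hm]
    exact ENNReal.toReal_le_of_le_ofReal (by positivity) key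

end Pool.Agent.Q195.NL.ZG
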